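import Pool.Agent.Lib_helper15.RB.AtP
import Pool.Agent.Lib_helper15.RB.KU
import Pool.Agent.Lib_helper3.AU.FN
import Pool.Agent.Lib_helper3.AU.ST
import Pool.Agent.Lib_helper49.RT.NW
import Pool.Agent.Lib_helper17.RS.P_L2
import Pool.Agent.Lib_helper17.RS.P_L4

/-!
# Rubin's conjecture for cyclic extensions of prime degree: working definitions
-/

set_option autoImplicit false
set_option linter.unusedSectionVars false

namespace Pool.Agent.PD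

open Pool.Agent Pool.Agent.RSK Pool.Agent.RS2 Pool.Agent.AU
open NumberField IsDedekindDomain Filter Topology Complex
open scoped TensorProduct

section Alg

variable {G : Type} [CommGroup G] [Fintype G]

/-- `(1 - e_1) + a e_1 = 1 + ((a - 1)/p) N`, where `p = #G` and `e_1 = N/p` -/
noncomputable def bA (p : ℕ) (G : Type) [CommGroup G] [Fintype G] (a : ℤ) : MonoidAlgebra ℚ G :=
  1 + (((a : ℚ) - 1) / p) • toQ G (nrm G)

/-- the `y ∈ ℚ[G]` such that `(1 - e_1) y + a e_1 y ∈ ℤ_(p)[G]` -/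
noncomputable def Qa (p : ℕ) (G : Type) [CommGroup G] [Fintype G] (a : ℤ) :
    AddSubgroup (MonoidAlgebra ℚ G) where
  carrier := {y | ∃ (m : ℕ) (b : MonoidAlgebra ℤ G), m.Coprime p ∧
    (m : ℚ) • (bA p G a * y) = toQ G b}
  zero_mem' := ⟨1, 0, Nat.coprime_one_left p, by rw [mul_zero, smul_zero, map_zero]⟩
  add_mem' := by
    rintro x y ⟨m, b, hm, hb⟩ ⟨n, c, hn, hc⟩
    refine ⟨m * n, n • b + m • c, hm.mul_left hn, ?_⟩
    rw [mul_add, smul_add, map_add, map_nsmul, map_nsmul, ← hb, ← hc,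
      ← Nat.cast_smul_eq_nsmul ℚ n, ← Nat.cast_smul_eq_nsmul ℚ m, smul_smul, smul_smul,
      Nat.cast_mul, mul_comm (n : ℚ) (m : ℚ)]
  neg_mem' := by
    rintro x ⟨m, b, hm, hb⟩
    exact ⟨m, -b, hm, by rw [mul_neg, smul_neg, hb, map_neg]⟩

/-- `m y = (k/p) N + b` -/
def Rep (p : ℕ) (y : MonoidAlgebra ℚ G) (m : ℕ) (k : ℤ) (b : MonoidAlgebra ℤ G) : Prop :=
  (m : ℚ) • y = ((k : ℚ) / p) • toQ G (nrm G) + toQ G b

/-- `y ∈ ℤ_(p)[G] + (1/p) ℤ_(p) N` -/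
def R0 (p : ℕ) (y : MonoidAlgebra ℚ G) : Prop :=
  ∃ (m : ℕ) (k : ℤ) (b : MonoidAlgebra ℤ G), m.Coprime p ∧ Rep p y m k b

/-- the augmentation -/
noncomputable def eps (b : MonoidAlgebra ℤ G) : ℤ := ∑ g : G, b.coeff g

end Alg

section Dat

variable {F H : Type} [Field F] [NumberField F] [Field H] [NumberField H] [Algebra F H]
variable {G : Type} [CommGroup G] [Fintype G]

/-- the data of Rubin's conjecture with `#S = r + 1` -/
structure One (ι : G ≃* (H ≃ₐ[F] H)) (S T : Finset (HeightOneSpectrum (𝓞 F))) (r : ℕ)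
    (w : Fin r → Pl H) (fr : HeightOneSpectrum (𝓞 F) → G) : Prop where
  data : Data ι S T r w fr
  one : Fintype.card (InfinitePlace F) + S.card = r + 1

/-- `u` has the value `Θ`: `χ((w_1^* ∧ … ∧ w_r^*)(λ(u))) = c χ⁻¹` -/
def Val (ι : G ≃* (H ≃ₐ[F] H)) (S T : Finset (HeightOneSpectrum (𝓞 F))) {r : ℕ}
    (w : Fin r → Pl H) (c : (G →* ℂˣ) → ℂ)
    (u : (⋀[MonoidAlgebra ℤ G]^r (UM ι S T)) ⊗[ℤ] ℚ) : Prop :=
  ∀ χ : G →* ℂˣ, evR χ (extQ (detMap (fun i => wl ι S T (w i))).toAddMonoidHom u) = c χ⁻¹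

/-- `u` is a rational Stark element (in the case `#S = r + 1`) -/
def Stk (ι : G ≃* (H ≃ₐ[F] H)) (S T : Finset (HeightOneSpectrum (𝓞 F))) {r : ℕ}
    (w : Fin r → Pl H) (fr : HeightOneSpectrum (𝓞 F) → G)
    (u : (⋀[MonoidAlgebra ℤ G]^r (UM ι S T)) ⊗[ℤ] ℚ) : Prop :=
  ∃ c : (G →* ℂˣ) → ℂ, Lead S T r fr c ∧ Val ι S T w c u

/-- `(1 - e_1) u + a e_1 u` lies in Rubin's lattice locally at `p` for all rational Stark elements -/
def Adm (p : ℕ) (a : ℤ) (ι : G ≃* (H ≃ₐ[F] H)) (S T : Finset (HeightOneSpectrum (𝓞 F))) {r : ℕ}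
    (w : Fin r → Pl H) (fr : HeightOneSpectrum (𝓞 F) → G) : Prop :=
  ∀ u : (⋀[MonoidAlgebra ℤ G]^r (UM ι S T)) ⊗[ℤ] ℚ, Stk ι S T w fr u →
    ∀ ψ : Fin r → (UM ι S T →ₗ[MonoidAlgebra ℤ G] MonoidAlgebra ℤ G), psiQ ψ u ∈ Qa p G a

/-- the place `v` splits completely in `H` -/
def Spl (H : Type) [Field H] [NumberField H] [Algebra F H] (v : Pl F) : Prop :=
  ∀ W : Pl H, dn F W = v → ∀ σ : H ≃ₐ[F] H, act σ W = W → σ = 1

/-- the inclusion of `U_{S,T}(F)` -/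
noncomputable abbrev inc (ι : G ≃* (H ≃ₐ[F] H)) (S T : Finset (HeightOneSpectrum (𝓞 F))) :
    Additive (Un S T) →+ UM ι S T := RSK.rf2_inc ι S T

/-- rational Stark elements exist (in the case `#S = r + 1`) -/
def Ext (ι : G ≃* (H ≃ₐ[F] H)) : Prop :=
  ∀ (S T : Finset (HeightOneSpectrum (𝓞 F))) (r : ℕ) (w : Fin r → Pl H)
    (fr : HeightOneSpectrum (𝓞 F) → G), One ι S T r w fr →
    ∃ u : (⋀[MonoidAlgebra ℤ G]^r (UM ι S T)) ⊗[ℤ] ℚ, Stk ι S T w fr u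

end Dat

end Pool.Agent.PD
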