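import Pool.Agent.Lib_helper15.RB.DefsK
import Pool.Agent.Lib_helper15.RB.DefsP

/-!
# Rubin's conjecture for cyclic extensions of prime degree: class groups, integrality at `p`
-/

namespace Pool.Agent.PD

open Pool.Agent.RB NumberField IsDedekindDomain

/-- The order of the quotient of the `(S,T)`-class group of `K` by the classes of the divisors in
`I`: the divisors `D : {finite places} → ℤ` which vanish on `T`, modulo those which agree outside `S`
with the divisor of some `x ≡ 1` modulo `T` (`|x|_v = (N v) ^ (-D v)` for `v ∉ S`), and those in `I`. -/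
noncomputable def clNum {K : Type} [Field K] [NumberField K]
    (S T : Set (HeightOneSpectrum (RingOfIntegers K)))
    (I : Set (Finsupp (HeightOneSpectrum (RingOfIntegers K)) ℤ)) : ℕ :=
  (AddSubgroup.closure {D : Finsupp (HeightOneSpectrum (RingOfIntegers K)) ℤ |
      (∀ v ∈ T, D v = 0) ∧ (D ∈ I ∨ ∃ x : K, x ≠ 0 ∧ (∀ v ∈ T, nabs (Sum.inr v) (x - 1) < 1) ∧
        ∀ v, v ∉ S → nabs (Sum.inr v) x = (Ideal.absNorm v.asIdeal : ℝ) ^ (-D v))}).relIndex
    (AddSubgroup.closure {D : Finsupp (HeightOneSpectrum (RingOfIntegers K)) ℤ |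
      ∀ v ∈ T, D v = 0})

variable {F H : Type} [Field F] [NumberField F] [Field H] [NumberField H] [Algebra F H]

/-- the order of the `(S,T)`-class group `Cl_{S,T}(F)` of `F` -/
noncomputable def clF (S : Finset (InfinitePlace F ⊕ HeightOneSpectrum (RingOfIntegers F)))
    (T : Finset (HeightOneSpectrum (RingOfIntegers F))) : ℕ :=
  clNum {v | Sum.inr v ∈ S} {v | v ∈ T} ∅

/-- the order of the quotient of the `(S,T)`-class group of `H` by the image of `Cl_{S,T}(F)`, the
group of the classes of the divisors `D` such that `D W` depends only on the place of `F` below `W` -/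
noncomputable def clH (H : Type) [Field H] [NumberField H] [Algebra F H]
    (S : Finset (InfinitePlace F ⊕ HeightOneSpectrum (RingOfIntegers F)))
    (T : Finset (HeightOneSpectrum (RingOfIntegers F))) : ℕ :=
  clNum {W : HeightOneSpectrum (RingOfIntegers H) | Sum.inr (W.under (RingOfIntegers F)) ∈ S}
    {W | W.under (RingOfIntegers F) ∈ T}
    {D | ∀ W W', W.under (RingOfIntegers F) = W'.under (RingOfIntegers F) → D W = D W'}

/-- `b u` lies in Rubin's lattice locally at the prime `q`, for `b ∈ ℚ[G]`: for all homomorphisms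
`f_i : U_{S,T} → ℤ`, the element `b (f_1 ∧ … ∧ f_r)(u)` is in `ℤ_(q)[G]`. -/
def LatAt {G : Type} [CommGroup G] [Fintype G] (q : ℕ) (b : MonoidAlgebra ℚ G)
    (ι : MulEquiv G (AlgEquiv F H H))
    (S : Finset (InfinitePlace F ⊕ HeightOneSpectrum (RingOfIntegers F)))
    (T : Finset (HeightOneSpectrum (RingOfIntegers F))) {r : ℕ}
    (u : Finsupp (Fin r → Units H) (MonoidAlgebra ℚ G)) : Prop :=
  ∀ f : Fin r → Units H → ℤ,
    (∀ i x y, IsU S T x → IsU S T y → f i (x * y) = f i x + f i y) →
    ∃ m : ℕ, ¬ q ∣ m ∧ ∀ g : G, ∃ n : ℤ,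
      (m : ℝ) * (MonoidAlgebra.mapRingHom G (algebraMap ℚ ℝ) b *
        dets ι (fun i x => (f i x : ℝ)) u).coeff g = n

/-- `1 + c N` with `N = ∑_g g`; for `c = (a - 1) / #G` this is `(1 - e_1) + a e_1`, where
`e_1 = N / #G` is the idempotent of the trivial character. -/
noncomputable def onePlus (G : Type) [CommGroup G] [Fintype G] (c : ℚ) : MonoidAlgebra ℚ G :=
  1 + ∑ g : G, MonoidAlgebra.single g c

end Pool.Agent.PD
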