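import Pool.Agent.Lib_helper24.PD.P.QG
import Pool.Agent.Lib_helper24.PD.P.QE
import Pool.Agent.Lib_helper24.PD.P.QD
import Pool.Agent.Lib_helper24.PD.P.QF
set_option autoImplicit false
namespace Pool.Agent.PD
open Pool.Agent.RB NumberField IsDedekindDomain

theorem main {F₀ F H L : Type} [Field F₀] [NumberField F₀] [Field F] [NumberField F] [Field H]
    [NumberField H] [Field L] [NumberField L] [Algebra F₀ F] [Algebra F₀ H] [Algebra F₀ L]
    [Algebra F H] [Algebra F L] [Algebra H L] [IsScalarTower F₀ F H] [IsScalarTower F₀ F L]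
    [IsScalarTower F H L] [IsGalois F H] {G : Type} [CommGroup G] [Fintype G]
    (ι : MulEquiv G (AlgEquiv F H H)) {p : ℕ} (hp : p.Prime) (hG : Nat.card G = p)
    (h : SymP F₀ L ∨ HolT F₀ F H ∨ KumN F₀ F H ∨
      (∀ K : IntermediateField F H, K ≠ ⊥ → IsCyclic (AlgEquiv F K K) → PermK F₀ F K L) ∨
      ∀ K : IntermediateField F H, IsCyclic (AlgEquiv F K K) → HolM F K) :
    (∀ (S : Finset (InfinitePlace F ⊕ HeightOneSpectrum (RingOfIntegers F)))
      (T : Finset (HeightOneSpectrum (RingOfIntegers F))) (r : ℕ)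
      (w : Fin r → InfinitePlace H ⊕ HeightOneSpectrum (RingOfIntegers H))
      (fr : HeightOneSpectrum (RingOfIntegers F) → G), Data ι S T w fr →
      (∃ u, Stark ι S T w fr u) ∧ ∀ u, Stark ι S T w fr u →
        ((r + 2 ≤ S.card ∨ p ∣ clF S T ∧ p ∣ clH H S T) → LatAt p 1 ι S T u) ∧
        ((KumN F₀ F H ∨ HolT F₀ F H ∨ SymP F₀ H ∨
          ∀ K : IntermediateField F H, IsCyclic (AlgEquiv F K K) → HolM F K) →
          (LatAt p 1 ι S T u ↔ RubinOn ⊤ ι S T w fr))) ∧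
    ∀ v₀ : InfinitePlace F ⊕ HeightOneSpectrum (RingOfIntegers F), Dg ι v₀ ≠ ⊥ →
      ∃ a : ℤ, ¬ (p : ℤ) ∣ a ∧
        ∀ (S : Finset (InfinitePlace F ⊕ HeightOneSpectrum (RingOfIntegers F)))
          (T : Finset (HeightOneSpectrum (RingOfIntegers F))) (r : ℕ)
          (w : Fin r → InfinitePlace H ⊕ HeightOneSpectrum (RingOfIntegers H))
          (fr : HeightOneSpectrum (RingOfIntegers F) → G)
          (u : Finsupp (Fin r → Units H) (MonoidAlgebra ℚ G)), Data ι S T w fr →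
          Stark ι S T w fr u → v₀ ∈ S → S.card = r + 1 → ¬ p ∣ clF S T →
            LatAt p (onePlus G (((a : ℚ) - 1) / p)) ι S T u ∧
              (LatAt p 1 ι S T u ↔ (p : ℤ) ∣ a - 1) :=
  ⟨fun S T r w fr hD => ⟨qe_exists (F₀ := F₀) (L := L) h hD, fun u hu =>
    ⟨fun h1 => qd_int hp hG hD h1 hu, fun h2 => qf_iff (F₀ := F₀) hp hG h2 hD hu⟩⟩,
    fun v₀ hv₀ => qg_two hp hG (fun S T r w fr hD => qe_exists (F₀ := F₀) (L := L) h hD) hv₀⟩

end Pool.Agent.PD
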